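import Pool.Agent.Helper12.TS.St

set_option autoImplicit false

namespace Pool.Agent.Helper90.TS

open Pool.Agent.Helper12.TS
open Pool.Agent.Helper51.AJ (IsMinor Planar Apex ExMinor Con Tch)
open Pool.Agent.Helper12.NK (rst Kc add)

/-- outside any finite set of at most `n` sets there is a component -/
private lemma tri_new {V : Type} [Finite V] {G : SimpleGraph V} {S : Set V} {n : ℕ}
    (h3 : n < {C | Cmp G S C}.ncard) (B : Set (Set V)) (hB : B.ncard ≤ n) :
    ∃ C, Cmp G S C ∧ C ∉ B := by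
  have hf : B.Finite := Set.toFinite B
  obtain ⟨e, he, he'⟩ := Set.exists_mem_notMem_of_ncard_lt_ncard (lt_of_le_of_lt hB h3) hf
  exact ⟨e, he, he'⟩

private lemma tri_card2 {α : Type} (a b : α) : ({a, b} : Set α).ncard ≤ 2 :=
  (Set.ncard_insert_le _ _).trans (by rw [Set.ncard_singleton])

private lemma tri_card3 {α : Type} (a b c : α) : ({a, b, c} : Set α).ncard ≤ 3 :=
  (Set.ncard_insert_le _ _).trans (by have := tri_card2 b c; omega)

private lemma tri_card4 {α : Type} (a b c d : α) : ({a, b, c, d} : Set α).ncard ≤ 4 :=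
  (Set.ncard_insert_le _ _).trans (by have := tri_card3 b c d; omega)

/-- a third component -/
private lemma tri_third {V : Type} [Finite V] {G : SimpleGraph V} {S : Set V}
    (h3 : 3 ≤ {C | Cmp G S C}.ncard) (Ca Cb : Set V) :
    ∃ Cc, Cmp G S Cc ∧ Ca ≠ Cc ∧ Cb ≠ Cc := by
  have h2 : 2 < {C | Cmp G S C}.ncard := by omega
  obtain ⟨C, hC, hn⟩ := tri_new h2 {Ca, Cb} (tri_card2 Ca Cb)
  simp only [Set.mem_insert_iff, Set.mem_singleton_iff, not_or] at hn
  exact ⟨C, hC, fun h => hn.1 h.symm, fun h => hn.2 h.symm⟩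

private lemma tri_two (hM3A : StM3A) {V : Type} [Finite V] {G : SimpleGraph V} {S : Set V}
    (hm : Mnm G) (hk : Kc 3 G Set.univ) (hS : S.ncard = 3) (h3 : 3 ≤ {C | Cmp G S C}.ncard)
    {Ca Cb : Set V} (ha : Cmp G S Ca) (hb : Cmp G S Cb) (h1 : ∃ i ∈ S, Stg G S Ca i)
    (h2 : ∃ i ∈ S, Stg G S Cb i) (h : ∀ s ∈ S, Stg G S Ca s ∨ Stg G S Cb s) : Ca = Cb := by
  by_contra hne
  obtain ⟨Cc, hc, hac, hbc⟩ := tri_third h3 Ca Cb
  exact hM3A V G S Ca Cb Cc hm hk hS ha hb hc hne hbc hac h1 h2 h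

/-- one component has all the `Stg` -/
private lemma tri_one (hSTG : StSTG) (hM3A : StM3A) (hM3D : StM3D) {V : Type} [Finite V]
    {G : SimpleGraph V} {S : Set V}
    (hm : Mnm G) (hk : Kc 3 G Set.univ) (hS : S.ncard = 3) (h3 : 3 ≤ {C | Cmp G S C}.ncard) :
    ∃ C₀, Cmp G S C₀ ∧ ∀ s ∈ S, Stg G S C₀ s := by
  obtain ⟨x, y, z, hxy, hxz, hyz, hSe⟩ := Set.ncard_eq_three.1 hS
  have hx : x ∈ S := by rw [hSe]; simp
  have hy : y ∈ S := by rw [hSe]; simp
  have hz : z ∈ S := by rw [hSe]; simp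
  have hall : ∀ s ∈ S, s = x ∨ s = y ∨ s = z := by
    intro s hs
    rw [hSe] at hs
    simpa using hs
  obtain ⟨Cx, hCx, hsx⟩ := hSTG V G S hm.1 hS x hx
  obtain ⟨Cy, hCy, hsy⟩ := hSTG V G S hm.1 hS y hy
  obtain ⟨Cz, hCz, hsz⟩ := hSTG V G S hm.1 hS z hz
  by_cases hxy' : Cx = Cy
  · subst hxy'
    have hxz' : Cx = Cz := by
      refine tri_two hM3A hm hk hS h3 hCx hCz ⟨x, hx, hsx⟩ ⟨z, hz, hsz⟩ ?_
      intro s hs
      rcases hall s hs with rfl | rfl | rfl
      · exact Or.inl hsx
      · exact Or.inl hsy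
      · exact Or.inr hsz
    subst hxz'
    refine ⟨Cx, hCx, fun s hs => ?_⟩
    rcases hall s hs with rfl | rfl | rfl
    · exact hsx
    · exact hsy
    · exact hsz
  · by_cases hxz' : Cx = Cz
    · subst hxz'
      refine absurd (tri_two hM3A hm hk hS h3 hCx hCy ⟨x, hx, hsx⟩ ⟨y, hy, hsy⟩ ?_) hxy'
      intro s hs
      rcases hall s hs with rfl | rfl | rfl
      · exact Or.inl hsx
      · exact Or.inr hsy
      · exact Or.inl hsz
    · by_cases hyz' : Cy = Cz
      · subst hyz'
        refine absurd (tri_two hM3A hm hk hS h3 hCx hCy ⟨x, hx, hsx⟩ ⟨y, hy, hsy⟩ ?_) hxy'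
        intro s hs
        rcases hall s hs with rfl | rfl | rfl
        · exact Or.inl hsx
        · exact Or.inr hsy
        · exact Or.inr hsz
      · exfalso
        refine hM3D V G S ![Cx, Cy, Cz] ![x, y, z] hm hk hS ?_ ?_ ?_ ?_ ?_
        · intro i
          fin_cases i
          · exact hCx
          · exact hCy
          · exact hCz
        · intro i j hij
          fin_cases i <;> fin_cases j <;> simp at hij ⊢ <;>
            first
              | exact hxy' | exact hxz' | exact hyz'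
              | exact fun h => hxy' h.symm | exact fun h => hxz' h.symm
              | exact fun h => hyz' h.symm
        · intro i
          fin_cases i
          · exact hx
          · exact hy
          · exact hz
        · intro i j hij
          fin_cases i <;> fin_cases j <;> simp at hij ⊢ <;>
            first
              | exact hxy hij | exact hxz hij | exact hyz hij
              | exact hxy hij.symm | exact hxz hij.symm | exact hyz hij.symm
        · intro i
          fin_cases i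
          · exact hsx
          · exact hsy
          · exact hsz

/-- TRI. -/
theorem hTRI : StSTG → StPLC → StM3A → StM3S → StM3K → StM3D → StM3E → StK5F → StTRI := by
  intro hSTG hPLC hM3A hM3S hM3K hM3D hM3E hK5F V _ G S hm hk hS h3
  obtain ⟨C₀, hC₀, hst⟩ := tri_one hSTG hM3A hM3D hm hk hS h3
  constructor
  · by_contra hcon
    have h5 : 4 < {C | Cmp G S C}.ncard := not_le.1 hcon
    obtain ⟨C₁, hC₁, hn₁⟩ := tri_new h5 {C₀} (by rw [Set.ncard_singleton]; omega)
    obtain ⟨C₂, hC₂, hn₂⟩ := tri_new h5 {C₀, C₁} ((tri_card2 _ _).trans (by omega))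
    obtain ⟨C₃, hC₃, hn₃⟩ := tri_new h5 {C₀, C₁, C₂} ((tri_card3 _ _ _).trans (by omega))
    obtain ⟨C₄, hC₄, hn₄⟩ := tri_new h5 {C₀, C₁, C₂, C₃} (tri_card4 _ _ _ _)
    simp only [Set.mem_insert_iff, Set.mem_singleton_iff, not_or] at hn₁ hn₂ hn₃ hn₄
    obtain ⟨a20, a21⟩ := hn₂
    obtain ⟨a30, a31, a32⟩ := hn₃
    obtain ⟨a40, a41, a42, a43⟩ := hn₄
    refine hM3E V G S ![C₀, C₁, C₂, C₃, C₄] hm hk hS ?_ ?_ ?_
    · intro i
      fin_cases i
      · exact hC₀
      · exact hC₁
      · exact hC₂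
      · exact hC₃
      · exact hC₄
    · have hlt : ∀ i j : Fin 5, i < j →
          (![C₀, C₁, C₂, C₃, C₄] : Fin 5 → Set V) j ≠ (![C₀, C₁, C₂, C₃, C₄] : Fin 5 → Set V) i := by
        intro i j hij
        fin_cases i <;> fin_cases j <;>
          first
            | exact absurd hij (by decide)
            | exact hn₁ | exact a20 | exact a21 | exact a30 | exact a31 | exact a32
            | exact a40 | exact a41 | exact a42 | exact a43
      intro i j hij
      rcases lt_or_gt_of_ne hij with h | h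
      · exact (hlt i j h).symm
      · exact hlt j i h
    · exact hst
  · refine ⟨C₀, hC₀, fun C hC hne => ?_⟩
    obtain ⟨Cc, hCc, h0c, hcc⟩ := tri_third h3 C₀ C
    refine hPLC V G S C hm hk hS hC ?_
    intro hN
    have hP := hM3S V G S C₀ C Cc hm hk hS hC₀ hC hCc hne.symm hcc h0c hst
    obtain ⟨F, Q, Q', hF⟩ := hK5F V G S C hS hC.1 hN hP
    exact hM3K V G S C₀ C Cc F Q Q' hm hk hS hC₀ hC hCc hne.symm hcc h0c hst hF

end Pool.Agent.Helper90.TS
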